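import Pool.Agent.V11320.PP.A
import Pool.Agent.V11320.PP.C

set_option autoImplicit false

namespace Pool.Agent.Results.MP_60b32f_nt.Unbounded

open Finset Pool.Agent.V11320.PP

/-- `𝒫(n)`: the finite sets of primes with sum `n`, that is, the partitions of `n` into distinct
primes. -/
def parts (n : ℕ) : Finset (Finset ℕ) :=
  ((range (n + 1)).filter Nat.Prime).powerset.filter (fun S => ∑ p ∈ S, p = n)

/-- `S` is the element of `𝒫(n)` maximising the product. -/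
def IsStar (n : ℕ) (S : Finset ℕ) : Prop :=
  S ∈ parts n ∧ ∀ R ∈ parts n, ∏ p ∈ R, p ≤ ∏ p ∈ S, p

/-- `M(n)`: the largest number of parts. -/
def M (n : ℕ) : ℕ := (parts n).sup card

open Classical in
/-- `m(n)`: the number of parts of `S*(n)`. -/
noncomputable def m (n : ℕ) : ℕ := if h : ∃ S, IsStar n S then h.choose.card else 0

/-- `D(n) = M(n) - m(n)`, as an integer. -/
noncomputable def D (n : ℕ) : ℤ := (M n : ℤ) - (m n : ℤ)

theorem mem_parts (n : ℕ) (S : Finset ℕ) :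
    S ∈ parts n ↔ (∀ p ∈ S, p.Prime) ∧ ∑ p ∈ S, p = n := by
  unfold parts
  rw [mem_filter, mem_powerset]
  constructor
  · rintro ⟨h1, h2⟩
    exact ⟨fun p hp => (mem_filter.1 (h1 hp)).2, h2⟩
  · rintro ⟨h1, h2⟩
    refine ⟨fun p hp => ?_, h2⟩
    rw [mem_filter, mem_range]
    have : p ≤ ∑ p ∈ S, p := single_le_sum (f := fun p : ℕ => p) (fun _ _ => Nat.zero_le _) hp
    exact ⟨by omega, h1 p hp⟩

theorem star_unique (n : ℕ) (S S' : Finset ℕ) (h : IsStar n S) (h' : IsStar n S') : S = S' := by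
  have e : ∏ p ∈ S, p = ∏ p ∈ S', p := le_antisymm (h'.2 S h.1) (h.2 S' h'.1)
  have e1 := Nat.primeFactors_prod ((mem_parts n S).1 h.1).1
  have e2 := Nat.primeFactors_prod ((mem_parts n S').1 h'.1).1
  rw [← e1, ← e2, e]

theorem m_eq (n : ℕ) (S : Finset ℕ) (h : IsStar n S) : m n = S.card := by
  have hex : ∃ S, IsStar n S := ⟨S, h⟩
  unfold m
  rw [dif_pos hex, star_unique n _ _ hex.choose_spec h]

theorem exists_star (n : ℕ) (h : (parts n).Nonempty) : ∃! S, IsStar n S := by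
  obtain ⟨S, hS, hmax⟩ := exists_max_image (parts n) (fun S => ∏ p ∈ S, p) h
  exact ⟨S, ⟨hS, hmax⟩, fun S' h' => star_unique n _ _ h' ⟨hS, hmax⟩⟩

/-- `D(n)` is unbounded: for every `C` there is an admissible `n` with `D(n) > C`. The first two
parts say what `parts` and `m` are. -/
theorem result :
    (∀ (n : ℕ) (S : Finset ℕ), S ∈ parts n ↔ (∀ p ∈ S, p.Prime) ∧ ∑ p ∈ S, p = n) ∧
    (∀ n : ℕ, (parts n).Nonempty → ∃! S, IsStar n S ∧ m n = S.card) ∧
    (∀ C : ℕ, ∃ n : ℕ, 2 ≤ n ∧ (parts n).Nonempty ∧ (C : ℤ) < D n) := by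
  classical
  refine ⟨mem_parts, ?_, ?_⟩
  · intro n hn
    obtain ⟨S, hS, hu⟩ := exists_star n hn
    exact ⟨S, ⟨hS, m_eq n S hS⟩, fun S' hS' => hu S' hS'.1⟩
  intro C
  obtain ⟨n₀, hthree⟩ := three
  obtain ⟨Q, hQcard, hQp, hQbest, hQsum⟩ := exists_best (2 * C + 4) n₀
  obtain ⟨X, hX⟩ := key Q (fun q hq => (hQp q hq).1) hQbest
  set B := ∏ q ∈ Q, q with hB
  set s := ∑ q ∈ Q, q with hs
  have hsodd : s % 2 = 1 := by
    have h1 : s ≡ ∑ q ∈ Q, 1 [MOD 2] := by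
      rw [hs]
      exact Nat.ModEq.sum fun q hq => by
        rcases (hQp q hq).1.eq_two_or_odd with h | h
        · have := (hQp q hq).2; omega
        · exact h
    rw [sum_const, smul_eq_mul, mul_one, hQcard] at h1
    have h2 : s % 2 = (2 * C + 4 + 1) % 2 := h1
    omega
  obtain ⟨p₁, p₂, p₃, hp₁, hp₂, hp₃, h12, h13, h23, hp⟩ := hthree s hQsum hsodd
  obtain ⟨x, hxX, hx, hiso⟩ := isolated (2 * B + 1) (X + s + 10)
  have hgap : ∀ p : ℕ, p.Prime → x < p → x + 2 * B < p := by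
    intro p hp hxp
    by_contra h
    have := hiso p hp (by omega) (by omega)
    omega
  have hkey := hX x (by omega) hgap
  set A := (range (x + 1)).filter Nat.Prime with hA
  have hAmem : ∀ p, p ∈ A ↔ p.Prime ∧ p ≤ x := by
    intro p
    rw [hA, mem_filter, mem_range]
    constructor
    · rintro ⟨h1, h2⟩; exact ⟨h2, by omega⟩
    · rintro ⟨h1, h2⟩; exact ⟨by omega, h1⟩
  have hQle : ∀ q ∈ Q, q ≤ s := fun q hq =>
    single_le_sum (f := fun p : ℕ => p) (fun _ _ => Nat.zero_le _) hq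
  have hQA : Q ⊆ A := by
    intro q hq
    rw [hAmem]
    have := hQle q hq
    exact ⟨(hQp q hq).1, by omega⟩
  have hxA : x ∈ A := (hAmem x).2 ⟨hx, le_rfl⟩
  have hxQ : x ∉ Q := by
    intro h
    have := hQle x h
    omega
  set S := A \ Q with hS
  set n := ∑ p ∈ S, p with hn
  have hnA : n + s = ∑ p ∈ A, p := sum_sdiff hQA
  have hprodA : (∏ p ∈ S, p) * B = ∏ p ∈ A, p := prod_sdiff hQA
  have hxS : x ∈ S := mem_sdiff.2 ⟨hxA, hxQ⟩
  have hn2 : 2 ≤ n := by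
    have : x ≤ n := single_le_sum (f := fun p : ℕ => p) (fun _ _ => Nat.zero_le _) hxS
    omega
  have hB0 : 0 < B := Nat.pos_of_ne_zero (prod_ne_zero_iff.2 fun q hq => (hQp q hq).1.ne_zero)
  have hSparts : S ∈ parts n := by
    rw [mem_parts]
    exact ⟨fun p hp => ((hAmem p).1 (mem_sdiff.1 hp).1).1, rfl⟩
  have hstar : IsStar n S := by
    refine ⟨hSparts, fun R hR => ?_⟩
    rw [mem_parts] at hR
    obtain ⟨hRp, hRn⟩ := hR
    have e1 : ∑ p ∈ A ∩ R, p + ∑ p ∈ A \ R, p = ∑ p ∈ A, p := sum_inter_add_sum_sdiff A R _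
    have e2 : ∑ p ∈ R ∩ A, p + ∑ p ∈ R \ A, p = ∑ p ∈ R, p := sum_inter_add_sum_sdiff R A _
    have f1 : (∏ p ∈ A ∩ R, p) * ∏ p ∈ A \ R, p = ∏ p ∈ A, p := prod_inter_mul_prod_sdiff A R _
    have f2 : (∏ p ∈ R ∩ A, p) * ∏ p ∈ R \ A, p = ∏ p ∈ R, p := prod_inter_mul_prod_sdiff R A _
    rw [inter_comm] at e2 f2
    have h1 := hkey (A \ R) (R \ A)
      (fun t ht => (hAmem t).1 (mem_sdiff.1 ht).1)
      (fun u hu => by
        have := mem_sdiff.1 hu
        refine ⟨hRp u this.1, ?_⟩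
        by_contra h
        exact this.2 ((hAmem u).2 ⟨hRp u this.1, by omega⟩))
      (by omega)
    have h2 : (∏ p ∈ R, p) * B ≤ (∏ p ∈ S, p) * B := by
      rw [hprodA, ← f1, ← f2]
      calc (∏ p ∈ A ∩ R, p) * (∏ p ∈ R \ A, p) * B = (∏ p ∈ A ∩ R, p) * (B * ∏ p ∈ R \ A, p) := by ring
        _ ≤ (∏ p ∈ A ∩ R, p) * ∏ p ∈ A \ R, p := Nat.mul_le_mul_left _ h1
    exact Nat.le_of_mul_le_mul_right h2 hB0
  refine ⟨n, hn2, ⟨S, hSparts⟩, ?_⟩
  -- a partition with many parts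
  set P : Finset ℕ := {p₁, p₂, p₃} with hP
  have hPcard : P.card = 3 := by
    rw [hP, card_eq_three]
    exact ⟨p₁, p₂, p₃, h12, h13, h23, rfl⟩
  have hPsum : ∑ p ∈ P, p = s := by
    rw [hP, sum_insert (by simp [h12, h13]), sum_pair h23]
    exact hp
  have hPA : P ⊆ A := by
    intro p hp'
    rw [hP, mem_insert, mem_insert, mem_singleton] at hp'
    rw [hAmem]
    rcases hp' with rfl | rfl | rfl
    · exact ⟨hp₁, by omega⟩
    · exact ⟨hp₂, by omega⟩
    · exact ⟨hp₃, by omega⟩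
  have hS'parts : A \ P ∈ parts n := by
    rw [mem_parts]
    refine ⟨fun p hp => ((hAmem p).1 (mem_sdiff.1 hp).1).1, ?_⟩
    have : ∑ p ∈ A \ P, p + ∑ p ∈ P, p = ∑ p ∈ A, p := sum_sdiff hPA
    omega
  have hM : (A \ P).card ≤ M n := le_sup (f := card) hS'parts
  have c1 : (A \ P).card = A.card - 3 := by rw [card_sdiff_of_subset hPA, hPcard]
  have c2 : S.card = A.card - (2 * C + 4 + 1) := by rw [hS, card_sdiff_of_subset hQA, hQcard]
  have c3 : 2 * C + 4 + 1 ≤ A.card := by rw [← hQcard]; exact card_le_card hQA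
  unfold D
  rw [m_eq n S hstar]
  omega

end Pool.Agent.Results.MP_60b32f_nt.Unbounded
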